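import Pool.Agent.H26.Dieu

set_option autoImplicit false

namespace Pool.Agent.Results.MP_11f428_an.Converse

open Filter Topology

theorem result (𝕜 : Type*) [RCLike 𝕜] (E : Type*) [NormedAddCommGroup E] [NormedSpace 𝕜 E]
    [CompleteSpace E] (x : ℕ → E) (f : ℕ → StrongDual 𝕜 E)
    (hx : (Submodule.span 𝕜 (Set.range x)).topologicalClosure = ⊤)
    (_hb : ∀ i j, f i (x j) = if i = j then 1 else 0)
    (htot : ∀ z, (∀ n, f n z = 0) → z = 0)
    (hbc : ∀ (g : ℕ → StrongDual 𝕜 E) (α : ℕ → 𝕜),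
      (∀ j, g j ∈ (Submodule.span 𝕜 (Set.range f)).topologicalClosure) →
      (∃ C, ∀ j, ‖g j‖ ≤ C) → (∀ n, Tendsto (fun j => g j (x n)) atTop (𝓝 (α n))) →
      ∃ h ∈ (Submodule.span 𝕜 (Set.range f)).topologicalClosure, ∀ n, h (x n) = α n) :
    (Submodule.span 𝕜 (Set.range f)).topologicalClosure = ⊤ :=
  Pool.Agent.H26.Dieu.top_of_seq x hx _
    (fun z hz => htot z fun n =>
      hz _ (Submodule.le_topologicalClosure _ (Submodule.subset_span ⟨n, rfl⟩))) hbc

end Pool.Agent.Results.MP_11f428_an.Converse
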